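import Pool.Agent.Lib.MP_e941ef_an.DataEx
import Pool.Agent.Lib.MP_e941ef_an.Sphere
import Pool.Agent.Lib.MP_e941ef_an.North

/-!
A natural Hamiltonian system on the 2-sphere with a nonconstant smooth potential whose
polynomial integrals have minimal degree `5`.
-/

namespace Pool.Agent.Results.MP_e941ef_an.QuinticCap

open Pool.Agent.Lib.MP_e941ef_an Filter Topology
open scoped ContDiff ComplexConjugate

lemma dense_ne : Dense {w : Ph | w.1 ≠ 0} := by
  have h : Dense ({(0 : ℝ × ℝ)}ᶜ : Set (ℝ × ℝ)) := dense_compl_singleton 0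
  have h2 := h.prod (dense_univ : Dense (Set.univ : Set (ℝ × ℝ)))
  refine h2.mono ?_
  intro w hw
  exact hw.1

lemma eq_of_ne {f g : Ph → ℝ} (hf : Continuous f) (hg : Continuous g)
    (h : ∀ w : Ph, w.1 ≠ 0 → f w = g w) : f = g :=
  Continuous.ext_on dense_ne hf hg fun w hw => h w hw

lemma contDiff_height (b : Bool) :
    ContDiff ℝ ∞ fun y : ℝ × ℝ => expNegInvGlue (-(stereo b y 2) - 2 / 3) := by
  have ht : ContDiff ℝ ∞ fun y : ℝ × ℝ => tt (RR y) := by
    unfold tt RR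
    refine ContDiff.div (by fun_prop) (by fun_prop) fun y => by positivity
  simp only [stereo_two]
  exact expNegInvGlue.contDiff.comp ((contDiff_const.mul ht).neg.sub contDiff_const)

lemma quint_neg (D : Data) (U : ℝ × ℝ → ℝ) (y p : ℝ × ℝ) :
    quint D.a1 D.a2 D.x D.l U (y, -p) = -quint D.a1 D.a2 D.x D.l U (y, p) ∧
      ham D.a1 D.a2 U (y, -p) = ham D.a1 D.a2 U (y, p) := by
  have h : piC D.a1 D.a2 (y, -p) = -piC D.a1 D.a2 (y, p) := by
    simp only [piC, Prod.fst_neg, Prod.snd_neg]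
    push_cast
    ring
  simp only [quint, lin, ham, h, mul_neg, Complex.neg_re, Complex.normSq_neg]
  constructor
  · ring
  · trivial

/-- The quintic part does not vanish at a point of the band. -/
lemma quint_band (D : Data) : ∃ y p : ℝ × ℝ, ∀ t : ℝ,
    quint D.a1 D.a2 D.x D.l (fun v => pot (RR v)) (y, t • p) = t ^ 5 * (17 / 160) := by
  have hR : RR ((3 / 2 : ℝ), (0 : ℝ)) = 9 / 4 := by norm_num [RR]
  have hs : Real.sqrt (9 / 4) = 3 / 2 := by
    rw [show (9 / 4 : ℝ) = (3 / 2) ^ 2 by norm_num, Real.sqrt_sq (by norm_num)]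
  obtain ⟨-, -, hx, hl⟩ := D.band ((3 / 2 : ℝ), (0 : ℝ)) (by rw [hR]; norm_num)
    (by rw [hR]; norm_num)
  have hx' : D.x ((3 / 2 : ℝ), (0 : ℝ)) = 1 / 4 := by
    rw [hx, hR, hs]
    simp only [VV]
    push_cast
    norm_num
  have hU : pot (RR ((3 / 2 : ℝ), (0 : ℝ))) = 0 := by
    rw [hR]
    exact expNegInvGlue.zero_of_nonpos (by norm_num [tt])
  refine ⟨((3 / 2 : ℝ), (0 : ℝ)), cov D.a1 D.a2 ((3 / 2 : ℝ), (0 : ℝ)) 1, fun t => ?_⟩
  have hc : t • cov D.a1 D.a2 ((3 / 2 : ℝ), (0 : ℝ)) 1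
      = cov D.a1 D.a2 ((3 / 2 : ℝ), (0 : ℝ)) (t : ℂ) := by
    simp only [cov, one_mul, Prod.smul_mk, smul_eq_mul, Complex.re_ofReal_mul]
    ext <;> simp only <;> ring
  rw [hc]
  simp only [quint, lin, ham, piC_cov (D.nondeg _), hx', hl, hU, Complex.normSq_ofReal]
  have : ((1 / 4 : ℂ) * (t : ℂ)).re = t / 4 := by
    rw [show (1 / 4 : ℂ) * (t : ℂ) = ((t / 4 : ℝ) : ℂ) by push_cast; ring, Complex.ofReal_re]
  rw [this]
  simp only [zero_mul, Complex.zero_re]
  ring

lemma top_ne {c : ℕ → ℕ → ℝ × ℝ → ℝ} {y p : ℝ × ℝ} {k : ℝ} (hk : k ≠ 0)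
    (h : ∀ t : ℝ, poly 5 c (y, t • p) = t ^ 5 * k) : ∃ i, i ≤ 5 ∧ c i (5 - i) y ≠ 0 := by
  by_contra hne
  push Not at hne
  have h0 := hne 0 (by norm_num)
  have h1 := hne 1 (by norm_num)
  have h2 := hne 2 (by norm_num)
  have h3 := hne 3 (by norm_num)
  have h4 := hne 4 (by norm_num)
  have h5 := hne 5 (by norm_num)
  have e0 := h 0
  have e1 := h 1
  have e2 := h 2
  have e3 := h 3
  have e4 := h 4
  have e5 := h 5
  simp only [poly, Finset.sum_range_succ, Finset.range_zero, Finset.sum_empty, Prod.smul_fst,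
    Prod.smul_snd, smul_eq_mul, Nat.reduceAdd, Nat.reduceSub] at e0 e1 e2 e3 e4 e5
  norm_num at h0 h1 h2 h3 h4 h5
  rw [h0, h1, h2, h3, h4, h5] at e0 e1 e2 e3 e4 e5
  apply hk
  linear_combination (-(e5 - 5 * e4 + 10 * e3 - 10 * e2 + 5 * e1 - e0)) / 120

theorem result : ∃ (H : Cot → ℝ) (U : E3 → ℝ), IsNatural H U ∧
    (∃ x y : E3, ‖x‖ = 1 ∧ ‖y‖ = 1 ∧ U x ≠ U y) ∧
    (∃ F : Cot → ℝ, IsPolyDeg F 5 ∧ IsIntegral H F ∧ ¬IsTrivial H F) ∧
    ∀ d ≤ 4, ∀ F : Cot → ℝ, IsPolyDeg F d → IsIntegral H F → IsTrivial H F := by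
  obtain ⟨D⟩ := data_exists
  obtain ⟨k11, k12, k22, cN, hN, s11, s12, s22, hpos, scN, ehN, thN, tcN⟩ := north D
  obtain ⟨j11, j12, j22, r11, r12, r22, jpos, ej⟩ := frame_cometric D.sa1 D.sa2 D.nondeg
  obtain ⟨cS, scS, ecS⟩ := quint_poly D.sa1 D.sa2 D.nondeg contDiff_pot D.sx D.sl
  set hS := ham D.a1 D.a2 (fun v => pot (RR v)) with hhS
  have shS : ContDiff ℝ ∞ hS := contDiff_ham D.sa1 D.sa2 D.nondeg contDiff_pot
  have shN : ContDiff ℝ ∞ hN := by
    have e : hN = fun w : Ph => 1 / 2 * (k11 w.1 * w.2.1 ^ 2 + 2 * k12 w.1 * w.2.1 * w.2.2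
        + k22 w.1 * w.2.2 ^ 2) + expNegInvGlue (-(stereo false w.1 2) - 2 / 3) := by
      funext w
      rw [ehN, stereo_two]
      simp
    rw [e]
    have h1 := (contDiff_height false).comp (contDiff_fst : ContDiff ℝ ∞ (Prod.fst : Ph → ℝ × ℝ))
    have h2 := s11.comp (contDiff_fst : ContDiff ℝ ∞ (Prod.fst : Ph → ℝ × ℝ))
    have h3 := s12.comp (contDiff_fst : ContDiff ℝ ∞ (Prod.fst : Ph → ℝ × ℝ))
    have h4 := s22.comp (contDiff_fst : ContDiff ℝ ∞ (Prod.fst : Ph → ℝ × ℝ))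
    have h5 : ContDiff ℝ ∞ fun w : Ph => w.2.1 := by fun_prop
    have h6 : ContDiff ℝ ∞ fun w : Ph => w.2.2 := by fun_prop
    exact (contDiff_const.mul (((h2.mul (h5.pow 2)).add
      (((contDiff_const.mul h3).mul h5).mul h6)).add (h4.mul (h6.pow 2)))).add h1
  obtain ⟨H, cHS, cHN⟩ := exists_glue thN
  obtain ⟨F, cFS, cFN⟩ := exists_glue tcN
  refine ⟨H, fun x => expNegInvGlue (-(x 2) - 2 / 3), ?_, ?_, ⟨F, ?_, ?_, ?_⟩, ?_⟩
  · intro b
    cases b with
    | false =>
      obtain ⟨g, sg, pg, eg⟩ := exists_metric s11 s12 s22 hpos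
      refine ⟨g, sg, pg, contDiff_height false, ?_⟩
      convert cHN using 1
      funext w
      rw [eg, ehN]
      simp [stereo_two]
    | true =>
      obtain ⟨g, sg, pg, eg⟩ := exists_metric r11 r12 r22 jpos
      refine ⟨g, sg, pg, contDiff_height true, ?_⟩
      convert cHS using 1
      funext w
      rw [eg, hhS, ham, ej]
      simp only [stereo_two, if_true, one_mul, pot]
      ring
  · refine ⟨stereo true 0, stereo false 0, norm_stereo _ _, norm_stereo _ _, ?_⟩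
    simp only [stereo_two]
    rw [expNegInvGlue.zero_of_nonpos (by norm_num [tt, RR])]
    exact (expNegInvGlue.pos_of_pos (by norm_num [tt, RR])).ne
  · obtain ⟨y, p, hyp⟩ := quint_band D
    rw [ecS] at hyp cFS
    obtain ⟨i, hi, hc⟩ := top_ne (by norm_num) hyp
    refine ⟨fun b => cond b cS cN, ?_, ?_, true, y, i, hi, hc⟩
    · intro b
      cases b
      exacts [scN, scS]
    · intro b
      cases b
      exacts [cFN, cFS]
  · intro b h f ch cf
    cases b with
    | true =>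
      rw [ch.unique cHS, cf.unique cFS]
      exact D.integral
    | false =>
      rw [ch.unique cHN, cf.unique cFN]
      have sq : ContDiff ℝ ∞ (quint D.a1 D.a2 D.x D.l fun v => pot (RR v)) := by
        rw [ecS]
        exact contDiff_poly scS
      have key := eq_of_ne (continuous_bracket shN (contDiff_poly (d := 5) scN))
        (continuous_const (y := (0 : ℝ))) fun w hw => by
          have ho : ∀ᶠ w' : Ph in 𝓝 w, w'.1 ≠ 0 :=
            (isOpen_ne_fun continuous_fst continuous_const).mem_nhds hw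
          rw [bracket_congr (ho.mono fun w' hw' => thN w' hw') (ho.mono fun w' hw' => tcN w' hw'),
            bracket_tr hw (shS.differentiable (by simp) _) (sq.differentiable (by simp) _)]
          exact D.integral _
      exact fun w => congrFun key w
  · rintro ⟨φ, hφ⟩
    obtain ⟨y, p, hyp⟩ := quint_band D
    obtain ⟨z₁, -, h₁⟩ := exists_lift true (y, p)
    obtain ⟨z₂, -, h₂⟩ := exists_lift true (y, -p)
    have e := hφ z₂
    rw [h₂ cFS, h₂ cHS, (quint_neg D _ y p).1, hhS, (quint_neg D _ y p).2, ← hhS, ← h₁ cHS,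
      ← hφ z₁, h₁ cFS] at e
    have e1 := hyp 1
    rw [one_smul] at e1
    rw [e1] at e
    norm_num at e
  · rintro d hd G ⟨c, sc, cG, -⟩ hint
    obtain ⟨c₀, c₁, c₂, hc⟩ := no_lower D hd (sc true) (hint true _ _ cHS (cG true))
    have hcN : poly d (c false) = fun w => c₀ + c₁ * hN w + c₂ * hN w ^ 2 := by
      have := shN.continuous
      refine eq_of_ne (contDiff_poly (sc false)).continuous (by fun_prop) fun w hw => ?_
      rw [(cG true).trans (cG false) hw, hc, thN w hw]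
    refine ⟨fun s => c₀ + c₁ * s + c₂ * s ^ 2, fun z => ?_⟩
    obtain ⟨b, w, -, hz⟩ := exists_chart z
    cases b with
    | true => rw [hz (cG true), hz cHS, hc]
    | false => rw [hz (cG false), hz cHN, hcN]

end Pool.Agent.Results.MP_e941ef_an.QuinticCap
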